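import Mathlib
import Pool.Agent.Dia50.Core

/-!
# MP_d16438_co: exponential chromatic number of `H_r(P)` while `H_{r+1}(P)` has no edges

For all `r ≥ 2` and `d ≥ r^(30 r)` there is a finite set `P` of points of `ℝ^d` such that

* no `r + 1` points of `P` are pairwise at distance `diam P`, so `χ(H_{r+1}(P)) = 1`;
* every subset `Q` of `P` with `|Q| ≥ exp(-√d / r^(15 r)) |P|` contains `r` points which are
  pairwise at distance `diam P`; in particular `χ(H_r(P)) > exp(√d / r^(15 r))`.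
-/

set_option autoImplicit false

namespace Pool.Agent.Results.MP_d16438_co.ExponentialWithoutSimplices

open Finset

/-- `S` is an edge of the `r`-uniform diameter hypergraph `H_r(P)`. -/
def IsEdge {d : ℕ} (r : ℕ) (P S : Finset (EuclideanSpace ℝ (Fin d))) : Prop :=
  S ⊆ P ∧ S.card = r ∧
    ∀ x ∈ S, ∀ y ∈ S, x ≠ y → dist x y = Metric.diam (P : Set (EuclideanSpace ℝ (Fin d)))

/-- `P` has a proper colouring with `m` colours: no edge of `H_r(P)` is monochromatic. -/
def Colourable {d : ℕ} (r : ℕ) (P : Finset (EuclideanSpace ℝ (Fin d))) (m : ℕ) : Prop :=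
  ∃ col : P → Fin m, ∀ S (hS : IsEdge r P S), ¬ ∀ x (hx : x ∈ S) y (hy : y ∈ S),
    col ⟨x, hS.1 hx⟩ = col ⟨y, hS.1 hy⟩

/-- The chromatic number `χ(H_r(P))`: the least number of colours of a proper colouring. -/
noncomputable def chi {d : ℕ} (r : ℕ) (P : Finset (EuclideanSpace ℝ (Fin d))) : ℕ :=
  sInf {m : ℕ | Colourable r P m}

/-- Every finite set has a proper colouring (`r ≥ 2`), so that `chi` is attained. -/
theorem colourable_card {d : ℕ} (r : ℕ) (hr : 2 ≤ r) (P : Finset (EuclideanSpace ℝ (Fin d))) :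
    Colourable r P P.card := by
  classical
  refine ⟨P.equivFin, ?_⟩
  intro S hS h
  have h2 : 1 < S.card := by rw [hS.2.1]; omega
  obtain ⟨x, hx, y, hy, hne⟩ := Finset.one_lt_card.1 h2
  have := P.equivFin.injective (h x hx y hy)
  exact hne (congrArg Subtype.val this)

theorem chi_colourable {d : ℕ} (r : ℕ) (hr : 2 ≤ r) (P : Finset (EuclideanSpace ℝ (Fin d))) :
    Colourable r P (chi r P) := by
  have h : sInf {m : ℕ | Colourable r P m} ∈ {m : ℕ | Colourable r P m} :=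
    Nat.sInf_mem ⟨P.card, colourable_card r hr P⟩
  exact h

/-- The size of the constants. -/
theorem const_bound (r a : ℕ) (hr : 2 ≤ r) (ha : 2 ^ a ≤ 2 * (r * (r + 1))) :
    (2 * r + 1) * 2 ^ a * 2 ^ ((r - 1) * (7 + 2 * a)) * r ^ 8 ≤ r ^ (15 * r) := by
  have h1 : 2 * r + 1 ≤ r ^ 3 := by
    have : r ^ 3 = r * (r * r) := by ring
    rw [this]
    nlinarith [Nat.mul_le_mul hr hr]
  have h2 : 2 ^ a ≤ r ^ 4 := by
    have e : r ^ 4 = (r * r) * (r * r) := by ring
    rw [e]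
    nlinarith [Nat.mul_le_mul hr hr, Nat.mul_le_mul (Nat.mul_le_mul hr hr) (le_refl (r * r))]
  have h3 : 2 ^ (7 + 2 * a) ≤ r ^ 15 := by
    have e1 : 2 ^ (7 + 2 * a) = 2 ^ 7 * (2 ^ a) ^ 2 := by
      rw [pow_add, mul_comm 2 a, pow_mul]
    rw [e1]
    calc 2 ^ 7 * (2 ^ a) ^ 2 ≤ r ^ 7 * (r ^ 4) ^ 2 :=
          Nat.mul_le_mul (Nat.pow_le_pow_left hr 7) (Nat.pow_le_pow_left h2 2)
      _ = r ^ 15 := by ring
  have h4 : 2 ^ ((r - 1) * (7 + 2 * a)) ≤ r ^ (15 * (r - 1)) := by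
    rw [mul_comm (r - 1), pow_mul, pow_mul]
    exact Nat.pow_le_pow_left h3 _
  calc (2 * r + 1) * 2 ^ a * 2 ^ ((r - 1) * (7 + 2 * a)) * r ^ 8
      ≤ r ^ 3 * r ^ 4 * r ^ (15 * (r - 1)) * r ^ 8 :=
        Nat.mul_le_mul_right _ (Nat.mul_le_mul (Nat.mul_le_mul h1 h2) h4)
    _ = r ^ (15 * r) := by
        rw [← pow_add, ← pow_add, ← pow_add]
        congr 1
        omega

/-- For all `r ≥ 2` and `d ≥ r^(30 r)` there is a finite `P ⊆ ℝ^d` with at least two points such
that `H_{r+1}(P)` has no edges (so its chromatic number is `1`), every `Q ⊆ P` with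
`|P| ≤ exp(√d / r^(15 r)) |Q|` contains an edge of `H_r(P)`, and
`χ(H_r(P)) > exp(√d / r^(15 r))`. -/
theorem result (r : ℕ) (hr : 2 ≤ r) (d : ℕ) (hd : r ^ (30 * r) ≤ d) :
    ∃ P : Finset (EuclideanSpace ℝ (Fin d)), 2 ≤ P.card ∧
      (∀ S, ¬ IsEdge (r + 1) P S) ∧ chi (r + 1) P = 1 ∧
      (∀ Q ⊆ P, (P.card : ℝ) ≤ Real.exp (Real.sqrt d / (r : ℝ) ^ (15 * r)) * Q.card →
        ∃ S ⊆ Q, IsEdge r P S) ∧
      Real.exp (Real.sqrt d / (r : ℝ) ^ (15 * r)) < chi r P := by
  classical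
  -- the parameters
  have hr1 : 1 ≤ r := by omega
  set a := Nat.log 2 (r * (r + 1)) + 1 with ha
  have ha1 : r * (r + 1) < 2 ^ a := Nat.lt_pow_succ_log_self (by norm_num) _
  have ha2 : 2 ^ a ≤ 2 * (r * (r + 1)) := by
    rw [ha, pow_succ, mul_comm]
    exact Nat.mul_le_mul_left _ (Nat.pow_log_le_self 2 (by positivity))
  set u := (r - 1) * (7 + 2 * a) with hu
  set C := (2 * r + 1) * 2 ^ a * 2 ^ u with hC
  have hC0 : 0 < C := by positivity
  have hCb : C * r ^ 8 ≤ r ^ (15 * r) := const_bound r a hr ha2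
  have hC4 : 4 * C ≤ r ^ (15 * r) := by
    refine le_trans ?_ hCb
    rw [mul_comm]
    apply Nat.mul_le_mul_left
    calc 4 ≤ 2 ^ 8 := by norm_num
      _ ≤ r ^ 8 := Nat.pow_le_pow_left hr 8
  have hCC : C * C ≤ d := by
    refine le_trans ?_ hd
    have h1 : C ≤ r ^ (15 * r) := le_trans (by omega) hC4
    calc C * C ≤ r ^ (15 * r) * r ^ (15 * r) := Nat.mul_le_mul h1 h1
      _ = r ^ (30 * r) := by rw [← pow_add]; congr 1; ring
  set M := Nat.sqrt d with hM
  have hCM : C ≤ M := Nat.le_sqrt.2 hCC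
  set t := Nat.log 2 (M / C) with ht
  have hMC : M / C ≠ 0 := by
    have := Nat.div_pos hCM hC0
    omega
  have ht1 : C * 2 ^ t ≤ M := by
    have h1 : 2 ^ t ≤ M / C := Nat.pow_log_le_self 2 hMC
    calc C * 2 ^ t ≤ C * (M / C) := Nat.mul_le_mul_left _ h1
      _ ≤ M := Nat.mul_div_le M C
  have ht2 : M + 1 ≤ C * 2 ^ (t + 1) := by
    have h1 : M / C < 2 ^ (t + 1) := Nat.lt_pow_succ_log_self (by norm_num) _
    have h2 := (Nat.div_lt_iff_lt_mul hC0).1 h1
    rw [mul_comm] at h2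
    exact h2
  have hMd : M * M ≤ d := Nat.sqrt_le d
  have hdM : d < (M + 1) * (M + 1) := Nat.lt_succ_sqrt d
  have hsqrt : Real.sqrt d ≤ 2 * C * 2 ^ t := by
    have h1 : Real.sqrt d ≤ (M : ℝ) + 1 := by
      apply Real.sqrt_le_iff.2
      refine ⟨by positivity, ?_⟩
      have : (d : ℝ) ≤ (((M + 1) * (M + 1) : ℕ) : ℝ) := by exact_mod_cast hdM.le
      push_cast at this
      nlinarith
    have h2 : ((M + 1 : ℕ) : ℝ) ≤ ((C * 2 ^ (t + 1) : ℕ) : ℝ) := by exact_mod_cast ht2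
    push_cast at h2
    rw [pow_succ] at h2
    linarith
  have hexp : Real.exp (Real.sqrt d / (r : ℝ) ^ (15 * r)) ≤ ((2 ^ (2 ^ t) : ℕ) : ℝ) := by
    have hC4R : 4 * (C : ℝ) ≤ (r : ℝ) ^ (15 * r) := by exact_mod_cast hC4
    have hC0R : (0 : ℝ) < C := by exact_mod_cast hC0
    have h1 : Real.sqrt d / (r : ℝ) ^ (15 * r) ≤ 2 ^ t * (1 / 2) := by
      calc Real.sqrt d / (r : ℝ) ^ (15 * r) ≤ Real.sqrt d / (4 * C) :=
            div_le_div_of_nonneg_left (Real.sqrt_nonneg _) (by positivity) hC4R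
        _ ≤ (2 * C * 2 ^ t) / (4 * C) := by
            apply div_le_div_of_nonneg_right hsqrt (by positivity)
        _ = 2 ^ t * (1 / 2) := by field_simp; ring
    have h2 : (1 / 2 : ℝ) ≤ Real.log 2 := by
      have := Real.log_two_gt_d9
      linarith
    calc Real.exp (Real.sqrt d / (r : ℝ) ^ (15 * r)) ≤ Real.exp (2 ^ t * Real.log 2) := by
          apply Real.exp_le_exp.2
          refine h1.trans ?_
          exact mul_le_mul_of_nonneg_left h2 (by positivity)
      _ = ((2 ^ (2 ^ t) : ℕ) : ℝ) := by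
          have h3 : (2 : ℝ) ^ t = ((2 ^ t : ℕ) : ℝ) := by push_cast; rfl
          rw [h3, Real.exp_nat_mul, Real.exp_log (by norm_num)]
          push_cast
          rfl
  have hdens := Pool.Dia50.dens_all a (by omega) r hr1 (by nlinarith) t
  obtain ⟨P, hPne, hP1, hP2⟩ := Pool.Dia50.core r (2 ^ (u + t)) a d (2 ^ (2 ^ t)) hr
    Nat.one_le_two_pow Nat.one_le_two_pow ha1 hdens (by
      have e1 : (2 * r + 1) * 2 ^ a * 2 ^ (u + t) = C * 2 ^ t := by rw [hC, pow_add]; ring
      rw [e1]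
      exact le_trans (Nat.mul_le_mul ht1 ht1) hMd)
  -- density
  have hdensity : ∀ Q ⊆ P,
      (P.card : ℝ) ≤ Real.exp (Real.sqrt d / (r : ℝ) ^ (15 * r)) * Q.card →
        ∃ S ⊆ Q, IsEdge r P S := by
    intro Q hQ hcard
    have h1 : P.card ≤ 2 ^ (2 ^ t) * Q.card := by
      have : (P.card : ℝ) ≤ ((2 ^ (2 ^ t) * Q.card : ℕ) : ℝ) := by
        rw [Nat.cast_mul]
        exact hcard.trans (mul_le_mul_of_nonneg_right hexp (Nat.cast_nonneg _))
      exact_mod_cast this
    obtain ⟨S, hSQ, hSr, hSd⟩ := hP2 Q hQ h1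
    exact ⟨S, hSQ, hSQ.trans hQ, hSr, hSd⟩
  have hPpos : 0 < P.card := Finset.card_pos.2 hPne
  -- colourings
  have hcol : ∀ m : ℕ, Colourable r P m →
      Real.exp (Real.sqrt d / (r : ℝ) ^ (15 * r)) < m := by
    intro m hm
    by_contra hle
    rw [not_lt] at hle
    obtain ⟨col, hcol⟩ := hm
    -- the colour classes
    have hex : ∃ c : Fin m, P.card ≤ m * (P.attach.filter (fun x => col x = c)).card := by
      by_contra hno
      push Not at hno
      have hm0 : (univ : Finset (Fin m)).Nonempty := by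
        obtain ⟨x, hx⟩ := hPne
        exact ⟨col ⟨x, hx⟩, Finset.mem_univ _⟩
      have h1 : ∑ c : Fin m, m * (P.attach.filter (fun x => col x = c)).card <
          ∑ _c : Fin m, P.card := Finset.sum_lt_sum_of_nonempty hm0 (fun c _ => hno c)
      rw [← Finset.mul_sum, ← Finset.card_eq_sum_card_fiberwise
        (fun x _ => Finset.mem_coe.2 (Finset.mem_univ (col x))), Finset.card_attach,
        Finset.sum_const, Finset.card_univ, Fintype.card_fin, smul_eq_mul] at h1
      exact lt_irrefl _ h1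
    obtain ⟨c, hc⟩ := hex
    set Q := (P.attach.filter (fun x => col x = c)).map (Function.Embedding.subtype _) with hQ
    have hQP : Q ⊆ P := by
      intro x hx
      rw [hQ, Finset.mem_map] at hx
      obtain ⟨y, _, rfl⟩ := hx
      exact y.2
    have hQc : Q.card = (P.attach.filter (fun x => col x = c)).card := Finset.card_map _
    obtain ⟨S, hSQ, hS⟩ := hdensity Q hQP (by
      have h1 : (P.card : ℝ) ≤ ((m * Q.card : ℕ) : ℝ) := by rw [hQc]; exact_mod_cast hc
      push_cast at h1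
      exact h1.trans (mul_le_mul_of_nonneg_right hle (Nat.cast_nonneg _)))
    have hcolS : ∀ x (hx : x ∈ S), col ⟨x, hS.1 hx⟩ = c := by
      intro x hx
      have := hSQ hx
      rw [hQ, Finset.mem_map] at this
      obtain ⟨y, hy, hyx⟩ := this
      have h2 := (Finset.mem_filter.1 hy).2
      have h3 : y = ⟨x, hS.1 hx⟩ := Subtype.ext hyx
      rw [← h3]; exact h2
    exact hcol S hS (fun x hx y hy => by rw [hcolS x hx, hcolS y hy])
  refine ⟨P, ?_, ?_, ?_, hdensity, hcol _ (chi_colourable r hr P)⟩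
  · -- at least two points
    obtain ⟨S, hSP, hSr, _⟩ := hP2 P (Finset.Subset.refl _)
      (Nat.le_mul_of_pos_left _ (by positivity))
    have := Finset.card_le_card hSP
    omega
  · intro S hS
    exact hP1 S hS.1 hS.2.1 hS.2.2
  · -- chromatic number one
    have h1 : Colourable (r + 1) P 1 :=
      ⟨fun _ => 0, fun S hS _ => hP1 S hS.1 hS.2.1 hS.2.2⟩
    have h2 : chi (r + 1) P ≤ 1 := Nat.sInf_le h1
    have h3 : chi (r + 1) P ≠ 0 := by
      intro h0
      have h4 := chi_colourable (r + 1) (by omega) P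
      rw [h0] at h4
      obtain ⟨col, _⟩ := h4
      obtain ⟨x, hx⟩ := hPne
      exact (col ⟨x, hx⟩).elim0
    omega

end Pool.Agent.Results.MP_d16438_co.ExponentialWithoutSimplices
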