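import Mathlib
import Pool.Agent.Dia50b.Defs
import Pool.Agent.Dia50b.Main

/-!
# MP_d16438_co: which pairs `(χ(H_r(P)), χ(H_s(P)))` occur

For every finite `P` and `2 ≤ r < s`, `χ(H_s(P)) ≤ ⌈χ(H_r(P)) / m⌉` with `m = ⌊(s-1)/(r-1)⌋`
(merge `m` colour classes).  This is the only restriction, and for `r ≥ 3` all pairs
`1 ≤ b ≤ a` occur as `(χ(H_r(P)), χ(H_{r+1}(P)))` in dimension `r^(35 r) (1 + log a)^4`.

`IsEdge`, `Colourable` and `chi` are defined in `Pool/Agent/Dia50b/Defs.lean`.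
-/

set_option autoImplicit false

namespace Pool.Agent.Results.MP_d16438_co.PointwiseLaw

open Pool.Dia50b

/-- **The pointwise law.**  Let `2 ≤ r < s` and `m = ⌊(s-1)/(r-1)⌋`.
(1) `χ(H_s(P)) ≤ ⌈χ(H_r(P))/m⌉` for all finite `P ⊆ ℝ^d`.
(2) If `a ≥ 2`, `1 ≤ b ≤ ⌈a/m⌉` and `d ≥ r^(35 r) m b (1 + log a)^2`, then some finite `P ⊆ ℝ^d`
has `χ(H_r(P)) = a` and `χ(H_s(P)) = b`.
(3) If `r ≥ 3`, `a ≥ 2`, `1 ≤ b ≤ a` and `d ≥ r^(35 r) (1 + log a)^4`, then some finite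
`P ⊆ ℝ^d` has `χ(H_r(P)) = a` and `χ(H_t(P)) = b` for all `r < t ≤ 2 r - 2`. -/
theorem result :
    (∀ d r s : ℕ, 2 ≤ r → r < s → ∀ P : Finset (EuclideanSpace ℝ (Fin d)),
      chi s P ≤ chi r P ⌈/⌉ ((s - 1) / (r - 1))) ∧
    (∀ r s a b d : ℕ, 2 ≤ r → r < s → 2 ≤ a → 1 ≤ b → b ≤ a ⌈/⌉ ((s - 1) / (r - 1)) →
      (r : ℝ) ^ (35 * r) * ((((s - 1) / (r - 1)) * b : ℕ) : ℝ) * (1 + Real.log a) ^ 2 ≤ d →
      ∃ P : Finset (EuclideanSpace ℝ (Fin d)), 2 ≤ P.card ∧ chi r P = a ∧ chi s P = b) ∧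
    (∀ r a b d : ℕ, 3 ≤ r → 2 ≤ a → 1 ≤ b → b ≤ a →
      (r : ℝ) ^ (35 * r) * (1 + Real.log a) ^ 4 ≤ d →
      ∃ P : Finset (EuclideanSpace ℝ (Fin d)), 2 ≤ P.card ∧ chi r P = a ∧
        ∀ t, r < t → t ≤ 2 * r - 2 → chi t P = b) :=
  ⟨part_one, part_two, part_three⟩

end Pool.Agent.Results.MP_d16438_co.PointwiseLaw
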