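import Mathlib
import Pool.Agent.Dia50d.Dens

/-!
MP_d16438_co, Q1: one point set with two-sided bounds for all `r`, the lower one polynomial in `1/r`
(a lower bound for the maxima).
-/

set_option autoImplicit false

namespace Pool.Agent.Results.MP_d16438_co.PolynomialLower

open Finset Pool.Dia50b Pool.Dia50d

theorem log_seven : (32 : ℝ) / 17 ≤ Real.log 7 := by
  have h1 : Real.exp 32 ≤ 7 ^ 17 := by
    have h2 : Real.exp 32 = Real.exp 1 ^ 32 := by
      rw [← Real.exp_nat_mul]; norm_num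
    rw [h2]
    calc Real.exp 1 ^ 32 ≤ 2.7182818286 ^ 32 :=
          pow_le_pow_left₀ (Real.exp_pos 1).le Real.exp_one_lt_d9.le 32
      _ ≤ 7 ^ 17 := by norm_num
  have h3 : (32 : ℝ) ≤ Real.log (7 ^ 17) := by
    rw [Real.le_log_iff_exp_le (by positivity)]; exact h1
  rw [Real.log_pow] at h3
  push_cast at h3
  linarith

theorem numeric (d N m e r : ℕ) (hN2 : d < 4 ^ (N + 1)) (hr : 2 ≤ r)
    (hm : 2 ^ (m - 1) ≤ r - 1) (hm1 : 1 ≤ m) (he : 4 * m + e = N) :
    Real.exp (Real.sqrt d / (17 * ((r : ℝ) - 1) ^ 4)) < 7 ^ (2 ^ e) := by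
  have hr1 : (0 : ℝ) < (r : ℝ) - 1 := by
    have : (2 : ℝ) ≤ r := by exact_mod_cast hr
    linarith
  have hsq : Real.sqrt d < 2 * 2 ^ N := by
    rw [Real.sqrt_lt' (by positivity)]
    have h1 : (d : ℝ) < 4 ^ (N + 1) := by exact_mod_cast hN2
    have h2 : ((2 : ℝ) * 2 ^ N) ^ 2 = 4 ^ (N + 1) := by
      rw [mul_pow, ← pow_mul, mul_comm N 2, pow_mul, pow_succ]; norm_num; ring
    rw [h2]; exact h1
  have hm2 : (2 : ℝ) ^ (m - 1) ≤ (r : ℝ) - 1 := by
    have h1 : ((2 ^ (m - 1) : ℕ) : ℝ) ≤ ((r - 1 : ℕ) : ℝ) := by exact_mod_cast hm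
    rw [Nat.cast_sub (by omega)] at h1
    push_cast at h1
    exact h1
  have hm3 : (2 : ℝ) ^ N ≤ 16 * ((r : ℝ) - 1) ^ 4 * 2 ^ e := by
    have h1 : (2 : ℝ) ^ N = 16 * (2 ^ (m - 1)) ^ 4 * 2 ^ e := by
      rw [← he, pow_add]
      congr 1
      rw [← pow_mul, show (16 : ℝ) = 2 ^ 4 by norm_num, ← pow_add]
      congr 1; omega
    rw [h1]
    apply mul_le_mul_of_nonneg_right _ (by positivity)
    apply mul_le_mul_of_nonneg_left _ (by norm_num)
    exact pow_le_pow_left₀ (by positivity) hm2 4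
  have hx : Real.sqrt d / (17 * ((r : ℝ) - 1) ^ 4) < (2 : ℝ) ^ e * Real.log 7 := by
    have h1 : Real.sqrt d / (17 * ((r : ℝ) - 1) ^ 4) < (2 : ℝ) ^ e * (32 / 17) := by
      rw [div_lt_iff₀ (by positivity)]
      calc Real.sqrt d < 2 * 2 ^ N := hsq
        _ ≤ 2 * (16 * ((r : ℝ) - 1) ^ 4 * 2 ^ e) := by linarith
        _ = (2 : ℝ) ^ e * (32 / 17) * (17 * ((r : ℝ) - 1) ^ 4) := by ring
    exact h1.trans_le (mul_le_mul_of_nonneg_left log_seven (by positivity))
  have h7 : (7 : ℝ) ^ (2 ^ e) = Real.exp ((2 : ℝ) ^ e * Real.log 7) := by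
    have h1 : (2 : ℝ) ^ e * Real.log 7 = ((2 ^ e : ℕ) : ℝ) * Real.log 7 := by push_cast; ring
    rw [h1, Real.exp_nat_mul, Real.exp_log (by norm_num)]
  rw [h7]
  exact Real.exp_lt_exp.2 hx

/-- For every `d ≥ 256` there is one finite set `P ⊆ ℝ^d` with `χ_r(P) ≤ 2^(√d / r)` for all
`r ≥ 2` such that, for all `r ≥ 2` with `256 (r - 1)^8 ≤ d`, every subset of `P` of density at
least `exp(-√d / (17 (r - 1)^4))` contains an edge of `H_r(P)`, and
`χ_r(P) > exp(√d / (17 (r - 1)^4))`. -/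
theorem result (d : ℕ) (hd : 256 ≤ d) :
    ∃ P : Finset (EuclideanSpace ℝ (Fin d)), 2 ≤ P.card ∧
      (∀ r : ℕ, 2 ≤ r → (chi r P : ℝ) ≤ (2 : ℝ) ^ (Real.sqrt d / r)) ∧
      ∀ r : ℕ, 2 ≤ r → 256 * (r - 1) ^ 8 ≤ d →
        (∀ Q ⊆ P, Real.exp (-(Real.sqrt d / (17 * ((r : ℝ) - 1) ^ 4))) * (P.card : ℝ) ≤ Q.card →
          ∃ S ⊆ Q, IsEdge r P S) ∧
        Real.exp (Real.sqrt d / (17 * ((r : ℝ) - 1) ^ 4)) < (chi r P : ℝ) := by
  classical
  set N := Nat.log 4 d with hN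
  have hN1 : 4 ^ N ≤ d := Nat.pow_log_le_self 4 (by omega)
  have hN2 : d < 4 ^ (N + 1) := Nat.lt_pow_succ_log_self (by norm_num) d
  have hN4 : 4 ≤ N := by
    rw [hN]
    exact Nat.le_log_of_pow_le (by norm_num) (by norm_num; exact hd)
  have hn : 0 < 2 ^ N := by positivity
  set i0 : Fin (2 ^ N) := ⟨0, hn⟩
  have hmod := model_vt (2 ^ N) i0
  obtain ⟨P, f, hP2, hPU, hinj, hG⟩ := realise' d (ι := Fin (2 ^ N) × Fin (2 ^ N))
    (by
      rw [Fintype.card_prod, Fintype.card_fin, ← mul_pow]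
      exact hN1)
    (vt (2 ^ N)) (UU (2 ^ N) i0) (Og (vt (2 ^ N)))
    (by
      intro a ha b hb
      rw [model_d2 hmod a b ha hb]
      refine ⟨by linarith [hmod.nn a ha b hb], ?_, ?_⟩
      · show _ ↔ ip (vt (2 ^ N) a) (vt (2 ^ N) b) = 0
        constructor <;> intro h1 <;> linarith
      · intro hne
        have := hmod.lt a ha b hb hne
        linarith)
    (by
      obtain ⟨h, hh⟩ := exists_h N 1 (by omega)
      refine ⟨rep i0 (vec h (fun _ => 0)), rep_mem i0 _, rep i0 (vec h (fun _ => 1)), rep_mem i0 _, ?_⟩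
      rw [og_iff _ hn]
      apply Sc_rep
      apply Sc_vec h hh
      intro h1
      have := congrFun h1 0
      exact absurd this (by decide))
  have hP : ∀ t m, Colourable t P m ↔ ColOn (Og (vt (2 ^ N))) (UU (2 ^ N) i0) t m :=
    fun t m => transfer P (UU (2 ^ N) i0) f hPU hinj (Og (vt (2 ^ N)))
      (fun a ha b hb _ => hG a ha b hb) t m
  have hPcard : P.card = (UU (2 ^ N) i0).card := by
    have h1 : P = (UU (2 ^ N) i0).image f := by
      ext x
      rw [hPU, Finset.mem_image]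
    rw [h1, Finset.card_image_of_injOn (fun a ha b hb hab => hinj a ha b hb hab)]
  refine ⟨P, hP2, ?_, ?_⟩
  · intro r hr
    have h2N : 2 ≤ 2 ^ N := by
      calc 2 = 2 ^ 1 := by norm_num
        _ ≤ 2 ^ N := Nat.pow_le_pow_right (by norm_num) (by omega)
    have h1 : Colourable r P (2 ^ (2 ^ N / r)) := by
      rw [hP]
      exact up_col (2 ^ N) r hr h2N
    have h2 : chi r P ≤ 2 ^ (2 ^ N / r) := Nat.sInf_le h1
    have h3 : (chi r P : ℝ) ≤ (2 : ℝ) ^ ((2 ^ N / r : ℕ) : ℝ) := by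
      rw [Real.rpow_natCast]
      exact_mod_cast h2
    refine h3.trans (Real.rpow_le_rpow_of_exponent_le (by norm_num) ?_)
    have h4 : ((2 ^ N : ℕ) : ℝ) ≤ Real.sqrt d := by
      apply Real.le_sqrt_of_sq_le
      have : (2 ^ N) ^ 2 ≤ d := by
        rw [← pow_mul, mul_comm N 2, pow_mul]; exact hN1
      exact_mod_cast this
    calc ((2 ^ N / r : ℕ) : ℝ) ≤ ((2 ^ N : ℕ) : ℝ) / r := Nat.cast_div_le
      _ ≤ Real.sqrt d / r := div_le_div_of_nonneg_right h4 (Nat.cast_nonneg r)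
  intro r hr hrd
  set m := Nat.clog 2 r with hm
  have hm1 : 1 ≤ m := Nat.clog_pos (by norm_num) hr
  have hm2 : r ≤ 2 ^ m := Nat.le_pow_clog (by norm_num) r
  have hm3 : 2 ^ (m - 1) < r := Nat.pow_pred_clog_lt_self (by norm_num) (by omega)
  have hmN : 4 * m ≤ N := by
    have h1 : 2 ^ (4 * m) ≤ 16 * (r - 1) ^ 4 := by
      have h2 : 2 ^ (4 * m) = 16 * (2 ^ (m - 1)) ^ 4 := by
        rw [← pow_mul, show (16 : ℕ) = 2 ^ 4 by norm_num, ← pow_add]
        congr 1; omega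
      rw [h2]
      exact Nat.mul_le_mul_left _ (Nat.pow_le_pow_left (by omega) 4)
    have h3 : (16 * (r - 1) ^ 4) ^ 2 < (2 ^ (N + 1)) ^ 2 := by
      calc (16 * (r - 1) ^ 4) ^ 2 = 256 * (r - 1) ^ 8 := by ring
        _ ≤ d := hrd
        _ < 4 ^ (N + 1) := hN2
        _ = (2 ^ (N + 1)) ^ 2 := by rw [← pow_mul, mul_comm (N + 1) 2, pow_mul]; norm_num
    have h4 : 16 * (r - 1) ^ 4 < 2 ^ (N + 1) := lt_of_pow_lt_pow_left₀ 2 (by positivity) h3
    have h5 : 2 ^ (4 * m) < 2 ^ (N + 1) := lt_of_le_of_lt h1 h4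
    have h6 := (Nat.pow_lt_pow_iff_right (a := 2) (by norm_num)).1 h5
    omega
  have hnum := numeric d N m (N - 4 * m) r hN2 hr (by omega) hm1 (by omega)
  constructor
  · intro Q hQ hden
    set A := (UU (2 ^ N) i0).filter (fun a => f a ∈ Q) with hA
    have hQA : Q = A.image f := by
      ext x
      rw [Finset.mem_image]
      constructor
      · intro hx
        obtain ⟨a, ha, rfl⟩ := (hPU x).1 (hQ hx)
        exact ⟨a, Finset.mem_filter.2 ⟨ha, hx⟩, rfl⟩
      · rintro ⟨a, ha, rfl⟩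
        exact (Finset.mem_filter.1 ha).2
    have hAU : A ⊆ UU (2 ^ N) i0 := Finset.filter_subset _ _
    have hQcard : Q.card = A.card := by
      rw [hQA, Finset.card_image_of_injOn (fun a ha b hb hab => hinj a (hAU ha) b (hAU hb) hab)]
    have hPpos : (0 : ℝ) < P.card := by exact_mod_cast (by omega : 0 < P.card)
    have hQpos : (0 : ℝ) < Q.card :=
      lt_of_lt_of_le (mul_pos (Real.exp_pos _) hPpos) hden
    have hA0 : A.Nonempty := by
      apply Finset.card_pos.1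
      rw [← hQcard]; exact_mod_cast hQpos
    have hcount : (UU (2 ^ N) i0).card ≤ 7 ^ (2 ^ (N - 4 * m)) * A.card := by
      have h1 : (P.card : ℝ) ≤ 7 ^ (2 ^ (N - 4 * m)) * Q.card := by
        have h2 : (P.card : ℝ) ≤ Real.exp (Real.sqrt d / (17 * ((r : ℝ) - 1) ^ 4)) * Q.card := by
          rw [Real.exp_neg] at hden
          have h3 := Real.exp_pos (Real.sqrt d / (17 * ((r : ℝ) - 1) ^ 4))
          rw [inv_mul_le_iff₀ h3] at hden
          exact hden
        exact h2.trans (mul_le_mul_of_nonneg_right hnum.le hQpos.le)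
      rw [← hPcard, ← hQcard]
      exact_mod_cast h1
    obtain ⟨S, hSA, hS⟩ := dens N m (N - 4 * m) hm1 (by omega) i0 A hAU hA0 hcount
    obtain ⟨S', hS'S, hS'⟩ := Clq.exists_subset (t := r) hS.2 (by rw [hS.1]; exact hm2)
    have hS'A : S' ⊆ A := hS'S.trans hSA
    have hS'Q : S'.image f ⊆ Q := by
      rw [hQA]; exact Finset.image_subset_image hS'A
    refine ⟨S'.image f, hS'Q, hS'Q.trans hQ, ?_, ?_⟩
    · rw [Finset.card_image_of_injOn (fun a ha b hb hab =>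
        hinj a (hAU (hS'A ha)) b (hAU (hS'A hb)) hab), hS'.1]
    · intro x hx y hy hxy
      obtain ⟨a, ha, rfl⟩ := Finset.mem_image.1 hx
      obtain ⟨b, hb, rfl⟩ := Finset.mem_image.1 hy
      exact (hG a (hAU (hS'A ha)) b (hAU (hS'A hb))).2
        (hS'.2 a ha b hb (fun h => hxy (by rw [h])))
  · have hcol := chi_colourable r hr P
    rw [hP] at hcol
    have hcol2 := ColOn.up hcol hm2
    have hbig : 7 ^ (2 ^ (N - 4 * m)) < chi r P := by
      by_contra hcon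
      push Not at hcon
      exact no_col N m (N - 4 * m) hm1 (by omega) i0 _ hcon hcol2
    have hbig' : (7 : ℝ) ^ (2 ^ (N - 4 * m)) < (chi r P : ℝ) := by exact_mod_cast hbig
    exact hnum.trans hbig'

end Pool.Agent.Results.MP_d16438_co.PolynomialLower
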