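import Mathlib
import Pool.Agent.Dia50b.Defs
import Pool.Agent.Dia50c.Fin

/-!
# MP_d16438_co: an upper bound for `χ_r(d)` whose growth rate tends to 1 with `r`

For all `r ≥ 2`, `d ≥ 1` and all finite `P ⊆ ℝ^d`,
`χ(H_r(P)) ≤ 400 d² (1 + log d) ((2r-1)/(2r-2))^(d/2)`.

For `r = 2` this is the order of the bound of Schramm and of Bourgain and Lindenstrauss,
`((3/2)^(1/2) + o(1))^d`.

Colour classes: for a direction `z`, the points which are never the lowest point (in direction
`z`) of an `r`-point simplex.  `IsEdge`, `Colourable` and `chi` are defined in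
`Pool/Agent/Dia50b/Defs.lean`.
-/

set_option autoImplicit false

namespace Pool.Agent.Results.MP_d16438_co.SchrammBound

open Pool.Dia50b

/-- For all `r ≥ 2`, `d ≥ 1` and all finite `P ⊆ ℝ^d`,
`χ(H_r(P)) ≤ 400 d² (1 + log d) ((2r-1)/(2r-2))^(d/2)`. -/
theorem result (r d : ℕ) (hr : 2 ≤ r) (hd : 1 ≤ d) (P : Finset (EuclideanSpace ℝ (Fin d))) :
    (chi r P : ℝ) ≤
      400 * (d : ℝ) ^ 2 * (1 + Real.log d) * Real.sqrt ((2 * r - 1) / (2 * r - 2)) ^ d :=
  Pool.Dia50c.bound r d hr hd P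

end Pool.Agent.Results.MP_d16438_co.SchrammBound
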